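import Mathlib
import Pool.Agent.H98.ExpMax

open MeasureTheory ProbabilityTheory Set

namespace Pool.Agent.Results.MP_c11bd2_pr.ExpMoment

/-- The correlation matrix `G_△ = m/(m-1) (I - J/m)` of the vertices of the regular simplex. -/
noncomputable def simplexCorr (m : ℕ) : Matrix (Fin m) (Fin m) ℝ :=
  ((m : ℝ) / (m - 1)) • (1 - (1 / (m : ℝ)) • Matrix.of (fun _ _ => (1 : ℝ)))

/-- **Equality case for the exponential moments of Gaussian maxima.**
Let `m ≥ 2`, let `G` be an `m × m` correlation matrix (positive semidefinite, unit diagonal) and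
let `l > 0`.  Then `E exp(l max_i ξ_i)` is finite for `ξ ~ N(0,G)`, and it equals
`E exp(l max_i ξ△_i)` for `ξ△ ~ N(0,G_△)` if and only if `G = G_△`. -/
theorem result : ∀ m : ℕ, 2 ≤ m → ∀ G : Matrix (Fin m) (Fin m) ℝ, G.PosSemidef →
    (∀ i, G i i = 1) → ∀ l : ℝ, 0 < l →
    Integrable (fun x : EuclideanSpace ℝ (Fin m) => Real.exp (l * ⨆ i, x i))
      (multivariateGaussian 0 G) ∧
    (∫ x : EuclideanSpace ℝ (Fin m), Real.exp (l * ⨆ i, x i) ∂(multivariateGaussian 0 G)
      = ∫ x : EuclideanSpace ℝ (Fin m), Real.exp (l * ⨆ i, x i)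
          ∂(multivariateGaussian 0 (simplexCorr m)) ↔ G = simplexCorr m) := by
  intro m hm G hG hd l hl
  exact ⟨Pool.Agent.H98.Gauss.integrable_exp_mx (by omega) hG hd l,
    Pool.Agent.H98.Gauss.exp_iff hm hG hd hl⟩

end Pool.Agent.Results.MP_c11bd2_pr.ExpMoment
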