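import Mathlib
import Pool.Agent.H98.Final

open MeasureTheory ProbabilityTheory Set

namespace Pool.Agent.Results.MP_c11bd2_pr.HalfLine

/-- **Equality case of the Gaussian maximum comparison at a single level.**
Let `m ≥ 2` and let `R` be a real `m × m` matrix with unit diagonal such that `R - J/m` is
positive semidefinite (`J` the all-ones matrix).  For every real `c`, the centred Gaussian vector
`X` with covariance `R` satisfies `P(X_i ≤ c for all i) = Φ(c)^m` if and only if `R = I_m`. -/
theorem result : ∀ m : ℕ, 2 ≤ m → ∀ R : Matrix (Fin m) (Fin m) ℝ, (∀ i, R i i = 1) →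
    (R - (1 / (m : ℝ)) • Matrix.of (fun _ _ => (1 : ℝ))).PosSemidef → ∀ c : ℝ,
    ((multivariateGaussian (0 : EuclideanSpace ℝ (Fin m)) R).real {x | ∀ i, x i ≤ c}
      = (gaussianReal 0 1).real (Iic c) ^ m ↔ R = 1) := by
  intro m hm R hd hR c
  exact (Pool.Agent.H98.Gauss.Adm.mk hd hR).eq_iff (by omega) c

end Pool.Agent.Results.MP_c11bd2_pr.HalfLine
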